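import Pool.Agent.Y321.SEP.TransP

/-!
# Presentations of `[[-x, b], [c, y]]`, `c ≥ 0`, at different levels (both signs of `x`)
-/

set_option autoImplicit false

namespace Pool.Agent.K1H62.SR

open Matrix Pool.Agent.TH441.SSE2 Pool.Agent.Y321.SE2

/-- Two presentations at level `l` which have a common upper bound are linked. -/
lemma conn (x b c y l s t s' t' T : ℤ) (hl : 0 ≤ l) (h1 : InH l s t) (h2 : InH l (s - x) (t + c))
    (h1' : InH l s' t') (h2' : InH l (s' - x) (t' + c)) (h4 : t ≤ T) (h5 : InH l (s - s') (T - t'))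
    (h3 : InH l (b + l * x - 2 * l * s) (y - l * c - 2 * l * T)) :
    Q (W x b c y l s t) (W x b c y l s' t') := by
  have q1 := move_add x b c y l s t 0 (T - t) hl h1
    ⟨by linarith, by
      have : 0 ≤ l * (T - t) := mul_nonneg hl (by linarith)
      linarith, mul_nonneg hl (by linarith)⟩ (by
      rw [add_zero, add_sub_cancel]; exact h3) h2
  have q2 := move_add x b c y l s' t' (s - s') (T - t') hl h1' h5 (by
      rw [add_sub_cancel, add_sub_cancel]; exact h3) h2'
  rw [add_zero, add_sub_cancel] at q1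
  rw [add_sub_cancel, add_sub_cancel] at q2
  exact q1.symm.trans q2

/-- One step down. -/
lemma desc1 (x b c y m s t t' : ℤ) (hm : 1 ≤ m) (htt : t' ≤ t)
    (h1 : InH (m + 1) s t') (h2 : InH (m + 1) (s - x) (t' + c))
    (h3 : InH m s t) (h4 : InH m (s - x) (t + c))
    (h5 : InH m (b + (m + 1) * x - 2 * (m + 1) * s) (y - (m + 1) * c - 2 * (m + 1) * t)) :
    Q (W x b c y (m + 1) s t') (W x b c y m s t) := by
  have q1 := move_add x b c y (m + 1) s t' 0 (t - t') (by linarith) h1
    ⟨by linarith, by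
      have : 0 ≤ (m + 1) * (t - t') := mul_nonneg (by linarith) (by linarith)
      linarith, mul_nonneg (by linarith) (by linarith)⟩ (by
      rw [add_zero, add_sub_cancel]; exact h5.mono (by linarith)) h2
  rw [add_zero, add_sub_cancel] at q1
  exact q1.symm.trans (move_shrink x b c y (m + 1) m s t (by linarith) (by linarith) h3 h5 h4)

/-- Ceiling division. -/
def ce (A m : ℤ) : ℤ := (A + m - 1) / m

lemma ce_spec (A m : ℤ) (hm : 1 ≤ m) : A ≤ m * ce A m ∧ m * ce A m ≤ A + m - 1 :=
  ceil_spec A m hm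

lemma inH_abs {l v w : ℤ} (hl : 1 ≤ l) (h : |v| ≤ l * w) : InH l v w :=
  mkInH hl (by have := neg_abs_le v; linarith) (le_trans (le_abs_self v) h)

lemma abs_of_inH {l v w : ℤ} (h : InH l v w) : |v| ≤ l * w := abs_le.mpr ⟨h.2.1, h.2.2⟩

lemma ce_one (A : ℤ) : ce A 1 = A := by simp [ce]

/-- From level `l` down to level one. -/
lemma desc (x b c y A s : ℤ) (hc : 0 ≤ c) (hs : |s| ≤ A) (hsx : |s - x| ≤ A) (hx : |x - 2 * s| ≤ 1)
    (n : ℕ) : ∀ l : ℤ, l = n + 1 → |b| + 2 ≤ y - l * c - 4 * A - 4 * l →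
    Q (W x b c y l s (ce A l)) (W x b c y 1 s A) := by
  have hA : 0 ≤ A := le_trans (abs_nonneg _) hs
  induction n with
  | zero =>
    intro l hl _
    have : l = 1 := by rw [hl]; simp
    rw [this, ce_one]
    exact Q.refl _
  | succ n ih =>
    intro l hl hY
    push_cast at hl
    obtain ⟨m, hm⟩ : ∃ m : ℤ, m = n + 1 := ⟨_, rfl⟩
    have hlm : l = m + 1 := by rw [hl, hm]
    subst hlm
    have hm1 : 1 ≤ m := by rw [hm]; linarith [Int.natCast_nonneg n]
    have ih' := ih m hm (by
      have : 0 ≤ c := hc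
      linarith)
    refine Q.trans ?_ ih'
    obtain ⟨h1, h2⟩ := ce_spec A m hm1
    obtain ⟨h3, h4⟩ := ce_spec A (m + 1) (by linarith)
    obtain ⟨t, ht⟩ : ∃ t, t = ce A m := ⟨_, rfl⟩
    obtain ⟨t', ht'⟩ : ∃ t', t' = ce A (m + 1) := ⟨_, rfl⟩
    rw [← ht] at h1 h2 ⊢
    rw [← ht'] at h3 h4 ⊢
    have ht0 : 0 ≤ t := by
      by_contra h; push Not at h
      have : m * t ≤ m * (-1) := mul_le_mul_of_nonneg_left (by linarith) (by linarith)
      linarith
    have htt : t' ≤ t := by
      by_contra h; push Not at h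
      have e1 : (m + 1) * (t + 1) ≤ (m + 1) * t' :=
        mul_le_mul_of_nonneg_left (by linarith) (by linarith)
      linarith
    have ht'0 : 0 ≤ t' := by
      by_contra h; push Not at h
      have : (m + 1) * t' ≤ (m + 1) * (-1) := mul_le_mul_of_nonneg_left (by linarith) (by linarith)
      linarith
    have hmc : 0 ≤ m * c := mul_nonneg (by linarith) hc
    refine desc1 x b c y m s t t' hm1 htt (inH_abs (by linarith) (by linarith))
      (inH_abs (by linarith) (by linarith)) (inH_abs hm1 (by linarith))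
      (inH_abs hm1 (by linarith)) (inH_abs hm1 ?_)
    have e1 : |b + (m + 1) * x - 2 * (m + 1) * s| ≤ |b| + (m + 1) := by
      have e : b + (m + 1) * x - 2 * (m + 1) * s = b + (m + 1) * (x - 2 * s) := by ring
      rw [e]
      refine (abs_add_le _ _).trans ?_
      rw [abs_mul, abs_of_nonneg (show (0 : ℤ) ≤ m + 1 by linarith)]
      have : (m + 1) * |x - 2 * s| ≤ (m + 1) * 1 := mul_le_mul_of_nonneg_left hx (by linarith)
      linarith
    have e2 : (m + 1) * t ≤ 2 * (A + m - 1) := by
      have : (m + 1) * t ≤ (2 * m) * t := mul_le_mul_of_nonneg_right (by linarith) ht0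
      linarith
    have e3 : y - (m + 1) * c - 4 * A - 4 * (m + 1) ≤ y - (m + 1) * c - 2 * (m + 1) * t := by
      linarith
    have hb0 := abs_nonneg b
    have e4 : m * (y - (m + 1) * c - 4 * A - 4 * (m + 1)) ≤
        m * (y - (m + 1) * c - 2 * (m + 1) * t) := mul_le_mul_of_nonneg_left e3 (by linarith)
    have e5 : 0 ≤ (m - 1) * (y - (m + 1) * c - 4 * A - 4 * (m + 1) - 2) :=
      mul_nonneg (by linarith) (by linarith)
    linarith

end Pool.Agent.K1H62.SR
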