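import Pool.Agent.K1H62.SR.Lev

/-!
# Further moves: transposition at level one, change of lattice, change of centre, reflection
-/

set_option autoImplicit false

namespace Pool.Agent.K1H62.SR

open Matrix Pool.Agent.TH441.SSE2 Pool.Agent.Y321.SE2

/-- Transposing a presentation at level one, in terms of the decompositions
`f_i = a_i (-1, 1) + b_i (0, 1) + c_i (1, 1)`. -/
lemma bridge (x b y s t s' t' : ℤ) (F : Matrix (Fin 3) (Fin 3) ℤ) (hF : NN F)
    (h1 : (Vc x 0 b y 1 s t)ᵀ = F * Ur 1) (h2 : Vc x b 0 y 1 s' t' = (Ur 1)ᵀ * F) :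
    Q (W x 0 b y 1 s t)ᵀ (W x b 0 y 1 s' t') := by
  unfold W
  rw [Matrix.transpose_mul, h1, h2]
  refine Q.of_elem F (Ur 1 * (Ur 1)ᵀ) hF ?_ ?_ ?_
  · intro i j
    fin_cases i <;> fin_cases j <;> simp [Ur, Matrix.mul_apply, Fin.sum_univ_succ]
  · rw [Matrix.mul_assoc]
  · rw [Matrix.mul_assoc]

/-- Change of lattice, `p ∣ y`. -/
lemma merge_y (x b m' p s t : ℤ) (hp : 0 ≤ p)
    (h1 : InH 1 s (p * t)) (h2 : InH 1 (s - x) (p * t + 0))
    (h3 : InH 1 (b + 1 * x - 2 * 1 * s) (p * m' - 1 * 0 - 2 * 1 * (p * t)))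
    (ht : 0 ≤ t) (hmt : 0 ≤ m' - 2 * t) :
    Q (W x b 0 (p * m') 1 s (p * t)) (W x (p * b) 0 (p * m') p s t) := by
  obtain ⟨h11, h12, h13⟩ := h1
  obtain ⟨h21, h22, h23⟩ := h2
  obtain ⟨h31, h32, h33⟩ := h3
  have e : W x b 0 (p * m') 1 s (p * t) =
      (!![-1, p; 0, p; 1, p] : Matrix (Fin 3) (Fin 2) ℤ) *
        (!![s, b + x - 2 * s, s - x; t, m' - 2 * t, t] : Matrix (Fin 2) (Fin 3) ℤ) := by
    ext i j; fin_cases i <;> fin_cases j <;>
      simp [W, Ur, Vc, Matrix.mul_apply, Fin.sum_univ_succ] <;> ring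
  rw [e]
  refine Q.move _ _ (Ur p) (Vc x (p * b) 0 (p * m') p s t) !![1, 0, 0; 0, p, 0; 0, 0, 1]
    ?_ ?_ ?_ ?_
  · intro i j; fin_cases i <;> fin_cases j <;> simp [hp]
  · intro i j
    fin_cases i <;> fin_cases j <;>
      simp [Ur, Matrix.mul_apply, Fin.sum_univ_succ] <;> linarith
  · ext i j; fin_cases i <;> fin_cases j <;>
      simp [Ur, Matrix.mul_apply, Fin.sum_univ_succ]
  · ext i j; fin_cases i <;> fin_cases j <;>
      simp [Vc, Matrix.mul_apply, Fin.sum_univ_succ] <;> ring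

/-- Change of lattice, `p ∣ x` and `p ∣ s`. -/
lemma merge_x (x' b y p s' t : ℤ) (hp : 0 < p)
    (h1 : InH 1 (p * s') (p * t)) (h2 : InH 1 (p * s' - p * x') (p * t + 0))
    (h3 : InH 1 (b + 1 * (p * x') - 2 * 1 * (p * s')) (y - 1 * 0 - 2 * 1 * (p * t))) :
    Q (W (p * x') b 0 y 1 (p * s') (p * t)) (W (p * x') (p * b) 0 y p (p * s') t) := by
  obtain ⟨h11, h12, h13⟩ := h1
  obtain ⟨h21, h22, h23⟩ := h2
  obtain ⟨h31, h32, h33⟩ := h3
  have c1 : 0 ≤ t := by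
    by_contra h; push Not at h
    have : p * t < 0 := mul_neg_of_pos_of_neg hp h
    linarith
  have c2 : s' ≤ t := le_of_mul_le_mul_left (by linarith) hp
  have c3 : -s' ≤ t := le_of_mul_le_mul_left (by linarith) hp
  have c4 : s' - x' ≤ t := le_of_mul_le_mul_left (by linarith) hp
  have c5 : -(s' - x') ≤ t := le_of_mul_le_mul_left (by linarith) hp
  have e : W (p * x') (p * b) 0 y p (p * s') t =
      (!![-p, p; 0, 1; p, p] : Matrix (Fin 3) (Fin 2) ℤ) *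
        (!![s', b + p * x' - 2 * (p * s'), s' - x'; t, y - 2 * (p * t), t] :
          Matrix (Fin 2) (Fin 3) ℤ) := by
    ext i j; fin_cases i <;> fin_cases j <;>
      simp [W, Ur, Vc, Matrix.mul_apply, Fin.sum_univ_succ] <;> ring
  rw [e]
  refine Q.symm ?_
  refine Q.move _ _ (Ur 1) (Vc (p * x') b 0 y 1 (p * s') (p * t)) !![p, 0, 0; 0, 1, 0; 0, 0, p]
    ?_ ?_ ?_ ?_
  · intro i j; fin_cases i <;> fin_cases j <;> simp [hp.le]
  · intro i j
    fin_cases i <;> fin_cases j <;>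
      simp [Ur, Matrix.mul_apply, Fin.sum_univ_succ] <;> linarith
  · ext i j; fin_cases i <;> fin_cases j <;>
      simp [Ur, Matrix.mul_apply, Fin.sum_univ_succ]
  · ext i j; fin_cases i <;> fin_cases j <;>
      simp [Vc, Matrix.mul_apply, Fin.sum_univ_succ] <;> ring

/-- Change of centre (with a change of level). -/
lemma shear (x b y l m q s t : ℤ) (hq1 : 0 ≤ l - q - m) (hq2 : 0 ≤ l - m + q)
    (h1 : InH m (s - q * t) t) (h2 : InH m (s - q * t - x) t)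
    (h3 : InH m (b + l * x - 2 * l * s - q * (y - 2 * l * t)) (y - 2 * l * t)) :
    Q (W x b 0 y l s t) (W x (b - q * (x + y)) 0 y m (s - q * t) t) := by
  obtain ⟨h11, h12, h13⟩ := h1
  obtain ⟨h21, h22, h23⟩ := h2
  obtain ⟨h31, h32, h33⟩ := h3
  have e : W x (b - q * (x + y)) 0 y m (s - q * t) t =
      (!![-1, q + m; 0, 1; 1, m - q] : Matrix (Fin 3) (Fin 2) ℤ) *
        (Vc x b 0 y l s t * !![1, l - q - m, 0; 0, 1, 0; 0, l - m + q, 1]) := by
    ext i j; fin_cases i <;> fin_cases j <;>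
      simp [W, Ur, Vc, Matrix.mul_apply, Fin.sum_univ_succ] <;> ring
  rw [e]
  refine Q.move _ _ _ _ !![1, l - q - m, 0; 0, 1, 0; 0, l - m + q, 1] ?_ ?_ ?_ rfl
  · intro i j; fin_cases i <;> fin_cases j <;> simp <;> linarith
  · intro i j
    fin_cases i <;> fin_cases j <;>
      simp [Vc, Matrix.mul_apply, Fin.sum_univ_succ] <;> linarith
  · ext i j; fin_cases i <;> fin_cases j <;>
      simp [Ur, Matrix.mul_apply, Fin.sum_univ_succ]

/-- A valid presentation is nonnegative. -/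
lemma W_NN (x b c y l s t : ℤ) (h1 : InH l s t) (h2 : InH l (s - x) (t + c))
    (h3 : InH l (b + l * x - 2 * l * s) (y - l * c - 2 * l * t)) : NN (W x b c y l s t) := by
  obtain ⟨h11, h12, h13⟩ := h1
  obtain ⟨h21, h22, h23⟩ := h2
  obtain ⟨h31, h32, h33⟩ := h3
  intro i j
  fin_cases i <;> fin_cases j <;>
    simp [W, Ur, Vc, Matrix.mul_apply, Fin.sum_univ_succ] <;> linarith

/-- Reflection. -/
lemma reflect (x b y s t : ℤ) (h1 : InH 1 s t) (h2 : InH 1 (s - x) (t + 0))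
    (h3 : InH 1 (b + 1 * x - 2 * 1 * s) (y - 1 * 0 - 2 * 1 * t)) :
    Q (W x b 0 y 1 s t) (W x (-b) 0 y 1 (x - s) t) := by
  have hW := W_NN x b 0 y 1 s t h1 h2 h3
  refine Q.of_elem (W x b 0 y 1 s t * !![0, 0, 1; 0, 1, 0; 1, 0, 0]) !![0, 0, 1; 0, 1, 0; 1, 0, 0]
    ?_ ?_ ?_ ?_
  · intro i j
    rw [Matrix.mul_apply]
    refine Finset.sum_nonneg fun k _ => mul_nonneg (hW i k) ?_
    fin_cases k <;> fin_cases j <;> simp
  · intro i j; fin_cases i <;> fin_cases j <;> simp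
  · rw [Matrix.mul_assoc]
    have : (!![0, 0, 1; 0, 1, 0; 1, 0, 0] * !![0, 0, 1; 0, 1, 0; 1, 0, 0] :
        Matrix (Fin 3) (Fin 3) ℤ) = 1 := by
      ext i j; fin_cases i <;> fin_cases j <;> simp [Matrix.mul_apply, Fin.sum_univ_succ]
    rw [this, Matrix.mul_one]
  · ext i j; fin_cases i <;> fin_cases j <;>
      simp [W, Ur, Vc, Matrix.mul_apply, Fin.sum_univ_succ] <;> ring

end Pool.Agent.K1H62.SR
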