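import Pool.Agent.K1H62.SR.Moves

/-!
# The canonical presentation of `[[-x, b], [0, y]]` and the multiplications by primes
-/

set_option autoImplicit false

namespace Pool.Agent.K1H62.SR

open Matrix Pool.Agent.TH441.SSE2 Pool.Agent.Y321.SE2

/-- Half of `|x|`, rounded up. -/
def Av (x : ℤ) : ℤ := (|x| + 1) / 2

/-- Half of `x`, rounded away from zero. -/
def s0 (x : ℤ) : ℤ := if 0 ≤ x then Av x else -Av x

lemma s0_spec (x : ℤ) (hx : x ≠ 0) : 1 ≤ Av x ∧ 2 * Av x ≤ |x| + 1 ∧ |x| ≤ 2 * Av x ∧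
    |s0 x| ≤ Av x ∧ |s0 x - x| ≤ Av x ∧ |x - 2 * s0 x| ≤ 1 := by
  have hA : Av x = (|x| + 1) / 2 := rfl
  have h0 : 0 < |x| := abs_pos.mpr hx
  unfold s0
  split_ifs with h
  · rw [abs_of_nonneg h] at hA h0 ⊢
    have h1 : 1 ≤ Av x := by omega
    rw [abs_of_nonneg (show 0 ≤ Av x by linarith), abs_le, abs_le]
    omega
  · push Not at h
    rw [abs_of_neg h] at hA h0 ⊢
    have h1 : 1 ≤ Av x := by omega
    rw [abs_neg, abs_of_nonneg (show 0 ≤ Av x by linarith), abs_le, abs_le]
    omega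

/-- The canonical presentation. -/
def K (x y b : ℤ) : Matrix (Fin 3) (Fin 3) ℤ := W x b 0 y 1 (s0 x) (Av x)

lemma K_neg (x y b : ℤ) (hx : x ≠ 0) (hy : 484 * |x| ≤ y) (hb : 2 * |b| ≤ x + y) :
    Q (K x y b) (K x y (-b)) := by
  obtain ⟨a1, a2, a3, a4, a5, a6⟩ := s0_spec x hx
  have h0 : 0 < |x| := abs_pos.mpr hx
  have hxx := le_abs_self x
  have e1 : |b + 1 * x - 2 * 1 * s0 x| ≤ |b| + 1 := by
    have e : b + 1 * x - 2 * 1 * s0 x = b + (x - 2 * s0 x) := by ring
    rw [e]; exact (abs_add_le _ _).trans (by linarith)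
  have e2 : |-b + 1 * x - 2 * 1 * (x - s0 x)| ≤ |b| + 1 := by
    have e : -b + 1 * x - 2 * 1 * (x - s0 x) = -(b + (x - 2 * s0 x)) := by ring
    rw [e, abs_neg]; exact (abs_add_le _ _).trans (by linarith)
  have q1 := reflect x b y (s0 x) (Av x) (inH_abs le_rfl (by linarith))
    (inH_abs le_rfl (by linarith)) (inH_abs le_rfl (by linarith))
  refine q1.trans ?_
  have e3 : x - s0 x - x = -(s0 x) := by ring
  have e4 : |x - s0 x| = |s0 x - x| := abs_sub_comm _ _
  have e5 : x - s0 x - s0 x = x - 2 * s0 x := by ring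
  refine conn x (-b) 0 y 1 (x - s0 x) (Av x) (s0 x) (Av x) (Av x + 1) (by norm_num)
    (inH_abs le_rfl (by rw [e4]; linarith)) (inH_abs le_rfl (by rw [e3, abs_neg]; linarith))
    (inH_abs le_rfl (by linarith)) (inH_abs le_rfl (by linarith)) (by linarith)
    (inH_abs le_rfl (by rw [e5]; linarith)) (inH_abs le_rfl (by linarith))

/-- The multiplication step, given the change of lattice. -/
lemma pm (x y b β p m q κ sq t : ℤ) (hx : x ≠ 0) (hy : 484 * |x| ≤ y) (hp : 2 ≤ p)
    (hpy : 22 * p ≤ y) (hm1 : 2 * m ≤ p) (hm2 : p ≤ 2 * m + 1) (hb : 2 * |b| ≤ x + y)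
    (hβ : 2 * |β| ≤ x + y) (hpb : p * b = q * (x + y) + β) (hκ1 : 1 ≤ κ) (hκ2 : κ ≤ 1 + |x|)
    (hsq : |(p + q) * x - 2 * p * sq| ≤ p * κ) (ht : t = ce (|x| + κ) m)
    (hmerge : 0 ≤ t → 2 * (p * t) ≤ y → InH 1 (sq + q * t) (p * t) →
      InH 1 (sq + q * t - x) (p * t + 0) →
      InH 1 (b + 1 * x - 2 * 1 * (sq + q * t)) (y - 1 * 0 - 2 * 1 * (p * t)) →
      Q (W x b 0 y 1 (sq + q * t) (p * t)) (W x (p * b) 0 y p (sq + q * t) t)) :
    Q (K x y b) (K x y β) := by
  obtain ⟨a1, a2, a3, a4, a5, a6⟩ := s0_spec x hx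
  have h0 : 0 < |x| := abs_pos.mpr hx
  have hxx := le_abs_self x
  have hxn := neg_abs_le x
  have hm : 1 ≤ m := by omega
  have hN : 0 < x + y := by linarith
  -- bound for `q`
  have hq : 2 * |q| ≤ p + 1 := by
    have e1 : |q| * (x + y) ≤ p * |b| + |β| := by
      have e : q * (x + y) = p * b - β := by linarith
      calc |q| * (x + y) = |q * (x + y)| := by rw [abs_mul, abs_of_pos hN]
        _ = |p * b - β| := by rw [e]
        _ ≤ |p * b| + |β| := abs_sub _ _
        _ = p * |b| + |β| := by rw [abs_mul, abs_of_nonneg (show 0 ≤ p by linarith)]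
    have e2 : p * (2 * |b|) ≤ p * (x + y) := mul_le_mul_of_nonneg_left hb (by linarith)
    have e3 : (x + y) * (2 * |q|) ≤ (x + y) * (p + 1) := by linarith
    exact le_of_mul_le_mul_left e3 hN
  have hqm : |q| + m ≤ p := by omega
  have hq1 := le_abs_self q
  have hq2 := neg_abs_le q
  have hq0 := abs_nonneg q
  -- `t`
  obtain ⟨c1, c2⟩ := ce_spec (|x| + κ) m hm
  rw [← ht] at c1 c2
  have ht0 : 0 ≤ t := nonneg_of_mul hm (by linarith) c1
  have hpt : p * t ≤ 3 * (m * t) := by
    have : p * t ≤ (3 * m) * t := mul_le_mul_of_nonneg_right (by linarith) ht0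
    linarith
  have hqt : (|q| + m) * t ≤ p * t := mul_le_mul_of_nonneg_right hqm ht0
  -- bounds for `sq`
  have hpq : |(p + q) * x| ≤ 2 * p * |x| := by
    rw [abs_mul]
    refine mul_le_mul_of_nonneg_right ?_ h0.le
    rw [abs_le]; constructor <;> linarith
  have hpq' : |(q - p) * x| ≤ 2 * p * |x| := by
    rw [abs_mul]
    refine mul_le_mul_of_nonneg_right ?_ h0.le
    rw [abs_le]; constructor <;> linarith
  have hsq1 : |sq| ≤ |x| + κ := by
    have e1 : |2 * p * sq| ≤ 2 * p * |x| + p * κ := by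
      have e : 2 * p * sq = (p + q) * x - ((p + q) * x - 2 * p * sq) := by ring
      rw [e]; exact (abs_sub _ _).trans (by linarith)
    rw [abs_mul, abs_of_nonneg (show 0 ≤ 2 * p by linarith)] at e1
    have e2 : 0 ≤ p * κ := mul_nonneg (by linarith) (by linarith)
    have e3 : (2 * p) * |sq| ≤ (2 * p) * (|x| + κ) := by linarith
    exact le_of_mul_le_mul_left e3 (by linarith)
  have hsq2 : |sq - x| ≤ |x| + κ := by
    have e1 : |2 * p * (sq - x)| ≤ 2 * p * |x| + p * κ := by
      have e : 2 * p * (sq - x) = (q - p) * x - ((p + q) * x - 2 * p * sq) := by ring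
      rw [e]; exact (abs_sub _ _).trans (by linarith)
    rw [abs_mul, abs_of_nonneg (show 0 ≤ 2 * p by linarith)] at e1
    have e2 : 0 ≤ p * κ := mul_nonneg (by linarith) (by linarith)
    have e3 : (2 * p) * |sq - x| ≤ (2 * p) * (|x| + κ) := by linarith
    exact le_of_mul_le_mul_left e3 (by linarith)
  have hqt' : |q * t| = |q| * t := by rw [abs_mul, abs_of_nonneg ht0]
  have hs1 : |sq + q * t| ≤ m * t + |q| * t := (abs_add_le _ _).trans (by rw [hqt']; linarith)
  have hs2 : |sq + q * t - x| ≤ m * t + |q| * t := by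
    have e : sq + q * t - x = (sq - x) + q * t := by ring
    rw [e]
    exact (abs_add_le _ _).trans (by rw [hqt']; linarith)
  -- the level one presentation `(s, p t)`
  have hI3 : |b + 1 * x - 2 * 1 * (sq + q * t)| ≤ |b| + 2 * (p * t) := by
    have e : b + 1 * x - 2 * 1 * (sq + q * t) = b + (-(sq + q * t) + -(sq + q * t - x)) := by ring
    rw [e]
    refine (abs_add_le _ _).trans ?_
    have := abs_add_le (-(sq + q * t)) (-(sq + q * t - x))
    rw [abs_neg, abs_neg] at this
    linarith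
  have I1 : InH 1 (sq + q * t) (p * t) := inH_abs le_rfl (by linarith)
  have I2 : InH 1 (sq + q * t - x) (p * t + 0) := inH_abs le_rfl (by linarith)
  have I3 : InH 1 (b + 1 * x - 2 * 1 * (sq + q * t)) (y - 1 * 0 - 2 * 1 * (p * t)) :=
    inH_abs le_rfl (by linarith)
  have q2 := hmerge ht0 (by linarith) I1 I2 I3
  -- from the canonical presentation
  have hconst : |b + 1 * x - 2 * 1 * s0 x| ≤ |b| + 1 := by
    have e : b + 1 * x - 2 * 1 * s0 x = b + (x - 2 * s0 x) := by ring
    rw [e]; exact (abs_add_le _ _).trans (by linarith)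
  have q1 : Q (K x y b) (W x b 0 y 1 (sq + q * t) (p * t)) := by
    have hd : |s0 x - (sq + q * t)| ≤ Av x + (m * t + |q| * t) :=
      (abs_sub _ _).trans (by linarith)
    refine conn x b 0 y 1 (s0 x) (Av x) (sq + q * t) (p * t)
      (p * t + (Av x + (m * t + |q| * t))) (by norm_num)
      (inH_abs le_rfl (by linarith)) (inH_abs le_rfl (by linarith)) I1 I2 (by
        have : 0 ≤ |q| * t := mul_nonneg hq0 ht0
        linarith) (inH_abs le_rfl (by linarith)) (inH_abs le_rfl (by linarith))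
  -- change of centre
  have hre : b + 0 = b := by ring
  have e6 : p * b + p * x - 2 * p * (sq + q * t) - q * (y - 2 * p * t) =
      β + ((p + q) * x - 2 * p * sq) := by
    have : p * b = q * (x + y) + β := hpb
    linear_combination this
  have hV0 : |β + ((p + q) * x - 2 * p * sq)| ≤ m * (y - 2 * p * t) := by
    have e1 : |β + ((p + q) * x - 2 * p * sq)| ≤ |β| + p * κ := (abs_add_le _ _).trans (by linarith)
    have e2 : p * κ ≤ (3 * m) * (1 + |x|) :=
      mul_le_mul (by linarith) hκ2 (by linarith) (by linarith)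
    have e3 : 0 ≤ (m - 1) * (y - 2 * p * t - 3 - 3 * |x|) := mul_nonneg (by linarith) (by linarith)
    linarith
  have q3 := shear x (p * b) y p m q (sq + q * t) t (by linarith) (by linarith)
    (inH_abs hm (by rw [add_sub_cancel_right]; linarith))
    (inH_abs hm (by rw [add_sub_cancel_right]; linarith))
    (inH_abs hm (by rw [e6]; exact hV0))
  rw [add_sub_cancel_right] at q3
  have e7 : p * b - q * (x + y) = β := by linarith
  rw [e7] at q3
  -- to the canonical presentation at level `m`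
  obtain ⟨d1, d2⟩ := ce_spec (Av x) m hm
  have hce0 : 0 ≤ ce (Av x) m := nonneg_of_mul hm (by linarith) d1
  have hcm : |β + m * x - 2 * m * s0 x| ≤ |β| + m := by
    have e : β + m * x - 2 * m * s0 x = β + m * (x - 2 * s0 x) := by ring
    rw [e]
    refine (abs_add_le _ _).trans ?_
    rw [abs_mul, abs_of_nonneg (show 0 ≤ m by linarith)]
    have : m * |x - 2 * s0 x| ≤ m * 1 := mul_le_mul_of_nonneg_left a6 (by linarith)
    linarith
  have q4 : Q (W x β 0 y m (s0 x) (ce (Av x) m)) (W x β 0 y m sq t) := by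
    have hd : |s0 x - sq| ≤ Av x + (|x| + κ) := (abs_sub _ _).trans (by linarith)
    refine conn x β 0 y m (s0 x) (ce (Av x) m) sq t (2 * t + ce (Av x) m) (by linarith)
      (inH_abs hm (by linarith)) (inH_abs hm (by linarith)) (inH_abs hm (by linarith))
      (inH_abs hm (by linarith)) (by linarith) (inH_abs hm (by linarith)) (inH_abs hm ?_)
    have e1 : 2 * m * (2 * t + ce (Av x) m) ≤ 4 * (|x| + κ + m - 1) + 2 * (Av x + m - 1) := by
      linarith
    have e3 : 0 ≤ (m - 1) * (y - 2 * m * (2 * t + ce (Av x) m) - 1) :=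
      mul_nonneg (by linarith) (by linarith)
    linarith
  have q5 := desc x β 0 y (Av x) (s0 x) le_rfl a4 a5 a6 (m - 1).toNat m (by
    rw [Int.toNat_of_nonneg (by linarith)]; ring) (by linarith)
  exact ((q1.trans q2).trans q3).trans (q4.symm.trans q5)

end Pool.Agent.K1H62.SR
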