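import Pool.Agent.K1H62.SR.Num

/-!
# The relation between classes, multiplication by the primes dividing `x y`
-/

set_option autoImplicit false

namespace Pool.Agent.K1H62.SR

open Matrix Pool.Agent.TH441.SSE2 Pool.Agent.Y321.SE2

/-- A representative modulo `N`. -/
lemma exists_rep (N b : ℤ) (hN : 0 < N) : ∃ β q : ℤ, b = q * N + β ∧ 2 * |β| ≤ N := by
  refine ⟨(b + N / 2) % N - N / 2, (b + N / 2) / N, ?_, ?_⟩
  · have := Int.emod_add_mul_ediv (b + N / 2) N
    linarith
  · have h1 := Int.emod_nonneg (b + N / 2) hN.ne'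
    have h2 := Int.emod_lt_of_pos (b + N / 2) hN
    have h3 : |(b + N / 2) % N - N / 2| ≤ N / 2 := by
      rw [abs_le]; constructor <;> omega
    omega

/-- The class of `b` is linked to the class of `b'`. -/
def Rl (x y b b' : ℤ) : Prop :=
  ∀ β β' : ℤ, 2 * |β| ≤ x + y → 2 * |β'| ≤ x + y → (x + y) ∣ b - β → (x + y) ∣ b' - β' →
    Q (K x y β) (K x y β')

section

variable {x y : ℤ} (hx : x ≠ 0) (hy : 484 * |x| ≤ y)

include hx hy

lemma N_pos : 0 < x + y := by
  have h0 : 0 < |x| := abs_pos.mpr hx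
  have := neg_abs_le x
  linarith

lemma rep_unique {β β' : ℤ} (h1 : 2 * |β| ≤ x + y) (h2 : 2 * |β'| ≤ x + y)
    (h : (x + y) ∣ β - β') : Q (K x y β) (K x y β') := by
  have hN := N_pos hx hy
  obtain ⟨k, hk⟩ := h
  have h3 : |β - β'| ≤ x + y := (abs_sub _ _).trans (by linarith)
  rw [hk, abs_mul, abs_of_pos hN] at h3
  have h4 : |k| ≤ 1 := by
    by_contra h5
    push Not at h5
    have : (x + y) * 2 ≤ (x + y) * |k| := mul_le_mul_of_nonneg_left (by linarith) hN.le
    linarith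
  have hb1 := le_abs_self β
  have hb2 := neg_abs_le β
  have hb3 := le_abs_self β'
  have hb4 := neg_abs_le β'
  have h5 : k = 0 ∨ k = 1 ∨ k = -1 := by
    rw [abs_le] at h4; omega
  rcases h5 with h5 | h5 | h5
  · rw [h5, mul_zero] at hk
    have : β = β' := by linarith
    rw [this]
    exact Q.refl _
  · rw [h5, mul_one] at hk
    have : β' = -β := by linarith
    rw [this]
    exact K_neg x y β hx hy h1
  · rw [h5] at hk
    have : β' = -β := by linarith
    rw [this]
    exact K_neg x y β hx hy h1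

lemma Rl.of_dvd {b b' : ℤ} (h : (x + y) ∣ b - b') : Rl x y b b' := by
  intro β β' h1 h2 h3 h4
  refine rep_unique hx hy h1 h2 ?_
  have e : β - β' = (b - b') - (b - β) + (b' - β') := by ring
  rw [e]
  exact dvd_add (dvd_sub h h3) h4

lemma Rl.trans {b b' b'' : ℤ} (h : Rl x y b b') (h' : Rl x y b' b'') : Rl x y b b'' := by
  intro β β'' h1 h2 h3 h4
  obtain ⟨β', q, e, h5⟩ := exists_rep (x + y) b' (N_pos hx hy)
  have h6 : (x + y) ∣ b' - β' := ⟨q, by rw [e]; ring⟩
  exact (h β β' h1 h5 h3 h6).trans (h' β' β'' h5 h2 h6 h4)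

omit hx hy in
lemma Rl.symm {b b' : ℤ} (h : Rl x y b b') : Rl x y b' b :=
  fun β β' h1 h2 h3 h4 => (h β' β h2 h1 h4 h3).symm

lemma Rl.neg (b : ℤ) : Rl x y b (-b) := by
  intro β β' h1 h2 h3 h4
  refine (K_neg x y β hx hy h1).trans (rep_unique hx hy (by rw [abs_neg]; exact h1) h2 ?_)
  have e : -β - β' = (b - β) + (-b - β') := by ring
  rw [e]
  exact dvd_add h3 h4

/-- Multiplication by `p` links the classes. -/
lemma Rl.of_step {p b : ℤ} (h : ∀ β β' q : ℤ, 2 * |β| ≤ x + y → 2 * |β'| ≤ x + y →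
    p * β = q * (x + y) + β' → Q (K x y β) (K x y β')) : Rl x y b (p * b) := by
  intro β β' h1 h2 h3 h4
  obtain ⟨β'', q, e, h5⟩ := exists_rep (x + y) (p * β) (N_pos hx hy)
  refine (h β β'' q h1 h5 e).trans (rep_unique hx hy h5 h2 ?_)
  have e2 : β'' - β' = -(p * (b - β)) + (p * b - β') - q * (x + y) := by linear_combination -e
  rw [e2]
  exact dvd_sub (dvd_add ((dvd_mul_of_dvd_right h3 p).neg_right) h4) (dvd_mul_left _ _)

/-- Primes (and other numbers) dividing `y`. -/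
lemma good_y {p : ℤ} (hp : 2 ≤ p) (hpy : 22 * p ≤ y) (hd : p ∣ y) (b : ℤ) : Rl x y b (p * b) := by
  refine Rl.of_step hx hy ?_
  intro β β' q h1 h2 hq
  obtain ⟨m', rfl⟩ := hd
  have h0 := abs_nonneg x
  obtain ⟨m, hm⟩ : ∃ m, m = p / 2 := ⟨_, rfl⟩
  obtain ⟨sq, hsq⟩ : ∃ s, s = ((p + q) * x + p) / (2 * p) := ⟨_, rfl⟩
  have e1 := Int.emod_add_mul_ediv ((p + q) * x + p) (2 * p)
  have e2 := Int.emod_nonneg ((p + q) * x + p) (show 2 * p ≠ 0 by linarith)
  have e3 := Int.emod_lt_of_pos ((p + q) * x + p) (show 0 < 2 * p by linarith)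
  rw [← hsq] at e1
  refine pm x (p * m') β β' p m q 1 sq (ce (|x| + 1) m) hx hy hp hpy (by omega) (by omega) h1 h2 hq
    le_rfl (by linarith) (by rw [abs_le]; constructor <;> linarith) rfl ?_
  intro ht0 hpt I1 I2 I3
  refine merge_y x β m' p _ _ (by linarith) I1 I2 I3 ht0 ?_
  have : p * (2 * ce (|x| + 1) m) ≤ p * m' := by linarith
  have := le_of_mul_le_mul_left this (by linarith)
  linarith

/-- Primes (and other numbers) dividing `x`. -/
lemma good_x {p : ℤ} (hp : 2 ≤ p) (hd : p ∣ x) (b : ℤ) : Rl x y b (p * b) := by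
  refine Rl.of_step hx hy ?_
  intro β β' q h1 h2 hq
  obtain ⟨x', rfl⟩ := hd
  have hpx : p ≤ |p * x'| := by
    have hx' : x' ≠ 0 := by rintro rfl; simp at hx
    have h3 : 1 ≤ |x'| := Int.one_le_abs hx'
    rw [abs_mul, abs_of_nonneg (show 0 ≤ p by linarith)]
    have : p * 1 ≤ p * |x'| := mul_le_mul_of_nonneg_left h3 (by linarith)
    linarith
  obtain ⟨m, hm⟩ : ∃ m, m = p / 2 := ⟨_, rfl⟩
  obtain ⟨t, ht⟩ : ∃ t, t = ce (|p * x'| + p) m := ⟨_, rfl⟩
  obtain ⟨s', hs'⟩ : ∃ s, s = ((p + q) * (p * x') + 2 * p * (q * t) + p * p) / (2 * (p * p)) :=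
    ⟨_, rfl⟩
  have hpp : 0 < 2 * (p * p) := by have := mul_pos (show 0 < p by linarith) (show 0 < p by linarith); linarith
  have e1 := Int.emod_add_mul_ediv ((p + q) * (p * x') + 2 * p * (q * t) + p * p) (2 * (p * p))
  have e2 := Int.emod_nonneg ((p + q) * (p * x') + 2 * p * (q * t) + p * p) hpp.ne'
  have e3 := Int.emod_lt_of_pos ((p + q) * (p * x') + 2 * p * (q * t) + p * p) hpp
  rw [← hs'] at e1
  refine pm (p * x') y β β' p m q p (p * s' - q * t) t hx hy hp (by linarith) (by omega) (by omega)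
    h1 h2 hq (by linarith) (by linarith) (by rw [abs_le]; constructor <;> linarith) ht ?_
  intro ht0 hpt I1 I2 I3
  rw [sub_add_cancel] at I1 I2 I3 ⊢
  exact merge_x x' β y p s' t (by linarith) I1 I2 I3

/-- Products of good numbers are good. -/
lemma good_mul {m n : ℤ} (hm : ∀ b, Rl x y b (m * b)) (hn : ∀ b, Rl x y b (n * b)) (b : ℤ) :
    Rl x y b (m * n * b) := by
  rw [mul_assoc]
  exact (hn b).trans hx hy (hm (n * b))

lemma good_one (b : ℤ) : Rl x y b (1 * b) := by
  rw [one_mul]; exact Rl.of_dvd hx hy (by simp)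

/-- Numbers all of whose prime factors are good are good. -/
lemma good_nat (n : ℕ) (hn : n ≠ 0) (h : ∀ p : ℕ, p.Prime → p ∣ n → ∀ b, Rl x y b ((p : ℤ) * b)) :
    ∀ b, Rl x y b ((n : ℤ) * b) := by
  induction n using Nat.strong_induction_on with
  | _ n ih =>
    by_cases h1 : n = 1
    · subst h1; intro b; simpa using good_one hx hy b
    · obtain ⟨p, hp, hpn⟩ := Nat.exists_prime_and_dvd h1
      obtain ⟨k, rfl⟩ := hpn
      have hk : k ≠ 0 := by rintro rfl; simp at hn
      have hlt : k < p * k := by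
        have := hp.two_le
        have : 1 ≤ k := Nat.one_le_iff_ne_zero.mpr hk
        nlinarith
      have h2 := ih k hlt hk (fun r hr hrk => h r hr (hrk.mul_left p))
      intro b
      push_cast
      exact good_mul hx hy (h p hp (dvd_mul_right p k)) h2 b

lemma good_dvd_x (n : ℕ) (hn : n ≠ 0) (h : ∀ p : ℕ, p.Prime → p ∣ n → (p : ℤ) ∣ x) :
    ∀ b, Rl x y b ((n : ℤ) * b) :=
  good_nat hx hy n hn fun p hp hpn => good_x hx hy (by exact_mod_cast hp.two_le) (h p hp hpn)

lemma good_abs {n : ℤ} (h : ∀ b, Rl x y b (((n.natAbs : ℕ) : ℤ) * b)) (b : ℤ) :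
    Rl x y b (n * b) := by
  rcases Int.natAbs_eq n with h1 | h1
  · rw [h1]; exact h b
  · rw [h1, neg_mul]
    exact (h b).trans hx hy (Rl.neg hx hy _)

lemma good_prime_y {p : ℕ} (hp : p.Prime) (hd : (p : ℤ) ∣ y) (b : ℤ) :
    Rl x y b ((p : ℤ) * b) := by
  have h0 : 0 < |x| := abs_pos.mpr hx
  have hp2 : (2 : ℤ) ≤ p := by exact_mod_cast hp.two_le
  rcases le_or_gt ((p : ℤ) * p) y with h1 | h1
  · refine good_y hx hy hp2 ?_ hd b
    rcases le_or_gt (p : ℤ) 22 with h2 | h2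
    · linarith
    · nlinarith
  · obtain ⟨m, hm⟩ := hd
    have hm0 : 0 < m := by
      by_contra h2
      push Not at h2
      have : (p : ℤ) * m ≤ 0 := mul_nonpos_of_nonneg_of_nonpos (by linarith) h2
      linarith
    have hmp : m < p := by
      rw [hm] at h1
      exact lt_of_mul_lt_mul_left h1 (by linarith)
    have hmm : m * m ≤ y := by
      rw [hm]; exact mul_le_mul hmp.le le_rfl hm0.le (by linarith)
    -- `m` is good
    have gm : ∀ b, Rl x y b (m * b) := by
      refine good_abs hx hy (good_nat hx hy _ (by omega) ?_)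
      intro r hr hrm c
      have hr2 : (2 : ℤ) ≤ r := by exact_mod_cast hr.two_le
      have hrm' : (r : ℤ) ∣ m := Int.natCast_dvd.mpr hrm
      have hrle : (r : ℤ) ≤ m := Int.le_of_dvd hm0 hrm'
      refine good_y hx hy hr2 ?_ (hm ▸ hrm'.mul_left _) c
      have hrr : (r : ℤ) * r ≤ y := le_trans (mul_le_mul hrle hrle (by linarith) hm0.le) hmm
      rcases le_or_gt (r : ℤ) 22 with h2 | h2
      · linarith
      · nlinarith
    -- `x` is good
    have gx : ∀ b, Rl x y b (x * b) :=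
      good_abs hx hy (good_dvd_x hx hy _ (by omega) fun r _ hr => Int.natCast_dvd.mpr hr)
    have g1 : Rl x y b (y * b) := by
      refine (gx b).trans hx hy ((Rl.neg hx hy _).trans hx hy (Rl.of_dvd hx hy ?_))
      exact ⟨-b, by ring⟩
    refine g1.trans hx hy (Rl.symm ?_)
    have e : y * b = m * (p * b) := by rw [hm]; ring
    rw [e]
    exact gm _

/-- Divisors of powers of `y`. -/
lemma good_pow_y {r : ℤ} (l : ℕ) (h : r ∣ y ^ l) (b : ℤ) : Rl x y b (r * b) := by
  have h0 : 0 < |x| := abs_pos.mpr hx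
  have hy0 : y ≠ 0 := by intro h; linarith
  have hr : r ≠ 0 := by
    rintro rfl
    exact pow_ne_zero l hy0 (zero_dvd_iff.mp h)
  refine good_abs hx hy (good_nat hx hy _ (by omega) ?_) b
  intro p hp hpr
  refine good_prime_y hx hy hp ?_
  have h1 : (p : ℤ) ∣ y ^ l := (Int.natCast_dvd.mpr hpr).trans h
  exact (Nat.prime_iff_prime_int.mp hp).dvd_of_dvd_pow h1

lemma good_pow_x {r : ℤ} (l : ℕ) (h : r ∣ x ^ l) (b : ℤ) : Rl x y b (r * b) := by
  have hr : r ≠ 0 := by
    rintro rfl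
    exact pow_ne_zero l hx (zero_dvd_iff.mp h)
  refine good_abs hx hy (good_dvd_x hx hy _ (by omega) ?_) b
  intro p hp hpr
  have h1 : (p : ℤ) ∣ x ^ l := (Int.natCast_dvd.mpr hpr).trans h
  exact (Nat.prime_iff_prime_int.mp hp).dvd_of_dvd_pow h1

/-- The classes of two shift equivalent matrices are linked. -/
theorem Rl.main {b b' r r' : ℤ} (l : ℕ) (hr : r ∣ y ^ l) (hr' : r' ∣ x ^ l)
    (h : (x + y) ∣ r * b - r' * b') : Rl x y b b' :=
  ((good_pow_y hx hy l hr b).trans hx hy (Rl.of_dvd hx hy h)).trans hx hy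
    (good_pow_x hx hy l hr' b').symm

end

end Pool.Agent.K1H62.SR
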