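import Pool.Agent.K1H62.SR.Two

/-!
# Triangular normal forms and shift equivalence over `ℤ`
-/

set_option autoImplicit false

namespace Pool.Agent.K1H62.SR

open Matrix Pool.Agent.TH441.SSE2 Pool.Agent.Y321.SE2

/-- Similar irreducible nonnegative matrices in the region are linked. -/
lemma simR {A A'' : Matrix (Fin 2) (Fin 2) ℤ} {T D : ℤ} (hA : NN A) (hA'' : NN A'')
    (p1 : 1 ≤ A 0 1) (p2 : 1 ≤ A 1 0) (p3 : 1 ≤ A'' 0 1) (p4 : 1 ≤ A'' 1 0)
    (hs : Sim A'' A) (hT : A.trace = T) (hD : A.det = -D) (hT0 : 0 < T) (hD0 : D ≠ 0)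
    (hTD : 500 * |D| ≤ T ^ 2) : Q A A'' := by
  rcases lt_or_gt_of_ne hD0 with hneg | hpos
  · rw [abs_of_neg hneg] at hTD
    obtain ⟨U, hU, hUA⟩ := hs
    obtain ⟨i1, i2⟩ := inv_entries hU hUA.symm hT hD
    rw [Matrix.trace_fin_two] at hT
    rw [Matrix.det_fin_two] at hD
    have hAeta := Matrix.eta_fin_two A
    have hA''eta := Matrix.eta_fin_two A''
    have hUeta := Matrix.eta_fin_two U
    have hUdet : U 0 0 * U 1 1 - U 0 1 * U 1 0 = 1 ∨ U 0 0 * U 1 1 - U 0 1 * U 1 0 = -1 := by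
      rw [← Matrix.det_fin_two]
      exact Int.isUnit_iff.mp hU
    rcases hUdet with h1 | h1
    · have h := river_one T (-D) hT0 (by linarith) (by linarith) (A 0 0) (A 0 1) (A 1 0) (A 1 1)
        (U 0 0) (U 0 1) (U 1 0) (U 1 1) (A'' 0 0) (A'' 0 1) (A'' 1 0) (A'' 1 1) p1 p2
        hT.symm (by linarith) i1 (by linarith) h1 p3 p4
        (by rw [← hAeta, ← hUeta, ← hA''eta]; exact hUA.symm)
      rw [← hAeta, ← hA''eta] at h
      exact h
    · have h2 : !![A 0 0, A 0 1; A 1 0, A 1 1] * !![U 0 1, U 0 0; U 1 1, U 1 0] =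
          !![U 0 1, U 0 0; U 1 1, U 1 0] * !![A'' 1 1, A'' 1 0; A'' 0 1, A'' 0 0] := by
        have k00 := congrFun (congrFun hUA 0) 0
        have k01 := congrFun (congrFun hUA 0) 1
        have k10 := congrFun (congrFun hUA 1) 0
        have k11 := congrFun (congrFun hUA 1) 1
        simp only [Matrix.mul_apply, Fin.sum_univ_two] at k00 k01 k10 k11
        ext i j; fin_cases i <;> fin_cases j <;>
          simp [Matrix.mul_apply, Fin.sum_univ_two] <;> linarith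
      have h := river_one T (-D) hT0 (by linarith) (by linarith) (A 0 0) (A 0 1) (A 1 0) (A 1 1)
        (U 0 1) (U 0 0) (U 1 1) (U 1 0) (A'' 1 1) (A'' 1 0) (A'' 0 1) (A'' 0 0) p1 p2
        hT.symm (by linarith) (by linarith) (by linarith) (by linarith) p4 p3 h2
      rw [← hAeta] at h
      have h3 := Q.swap (A'' 0 0) (A'' 0 1) (A'' 1 0) (A'' 1 1) (hA'' 0 0) (hA'' 0 1) (hA'' 1 0)
        (hA'' 1 1)
      rw [← hA''eta] at h3
      exact h.trans h3.symm
  · rw [abs_of_pos hpos] at hTD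
    exact sim_Q hA hA'' hs hT hD hT0 hpos (by linarith)

/-- The triangular normal form. -/
lemma exists_tri (A : Matrix (Fin 2) (Fin 2) ℤ) (k : ℤ)
    (hk : A.trace ^ 2 - 4 * A.det = k * k) (h01 : 1 ≤ A 0 1) :
    ∃ x y b : ℤ, Sim A (Pm x y b) ∧ y - x = A.trace ∧ x * y = -A.det ∧ x + y = k := by
  obtain ⟨a, ha⟩ : ∃ a, a = A 0 0 := ⟨_, rfl⟩
  obtain ⟨b', hb'⟩ : ∃ a, a = A 0 1 := ⟨_, rfl⟩
  obtain ⟨c', hc'⟩ : ∃ a, a = A 1 0 := ⟨_, rfl⟩
  obtain ⟨d, hd⟩ : ∃ a, a = A 1 1 := ⟨_, rfl⟩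
  have hAeta := Matrix.eta_fin_two A
  rw [Matrix.trace_fin_two, Matrix.det_fin_two] at hk ⊢
  rw [← ha, ← hb', ← hc', ← hd] at hk hAeta ⊢
  rw [← hb'] at h01
  rw [hAeta]
  clear ha hb' hc' hd hAeta
  have hpar : ∃ x, 2 * x = k - (a + d) := by
    have h1 : Even ((a + d) ^ 2 - 4 * (a * d - b' * c')) ↔ Even (k * k) := by rw [hk]
    have h2 : Even (a + d) ↔ Even k := by
      have e1 : Even ((a + d) ^ 2 - 4 * (a * d - b' * c')) ↔ Even (a + d) := by
        rw [Int.even_sub, Int.even_pow' (by norm_num)]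
        have : Even (4 * (a * d - b' * c')) := ⟨2 * (a * d - b' * c'), by ring⟩
        simp [this]
      have e2 : Even (k * k) ↔ Even k := by rw [Int.even_mul]; simp
      rw [← e1, h1, e2]
    have h3 : Even (k - (a + d)) := by rw [Int.even_sub]; exact h2.symm
    obtain ⟨x, hx⟩ := h3
    exact ⟨x, by linarith⟩
  obtain ⟨x, hx⟩ := hpar
  have hchar : (a + x) * (d + x) = b' * c' := by
    have h4 : 4 * ((a + x) * (d + x)) = 4 * (b' * c') := by
      have hx' : k = 2 * x + (a + d) := by linarith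
      rw [hx'] at hk
      linear_combination -hk
    linarith
  obtain ⟨g, hg⟩ : ∃ g : ℤ, g = Int.gcd b' (a + x) := ⟨_, rfl⟩
  have hg0 : 0 < g := by
    rw [hg]
    exact_mod_cast Int.gcd_pos_iff.mpr (Or.inl (by linarith))
  have hbez := Int.gcd_eq_gcd_ab b' (a + x)
  rw [← hg] at hbez
  obtain ⟨w1, hw1⟩ : g ∣ b' := by rw [hg]; exact Int.gcd_dvd_left ..
  obtain ⟨w2, hw2⟩ : g ∣ a + x := by rw [hg]; exact Int.gcd_dvd_right ..
  obtain ⟨u, hu⟩ : ∃ u, u = Int.gcdA b' (a + x) := ⟨_, rfl⟩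
  obtain ⟨v, hv⟩ : ∃ v, v = Int.gcdB b' (a + x) := ⟨_, rfl⟩
  rw [← hu, ← hv] at hbez
  have hdet1 : w1 * u + w2 * v = 1 := by
    have : g * (w1 * u + w2 * v) = g * 1 := by
      rw [hw1, hw2] at hbez
      linear_combination -hbez
    exact mul_left_cancel₀ hg0.ne' this
  have r1 : (a + x) * w1 = b' * w2 := by rw [hw1, hw2]; ring
  have r2 : c' * w1 = (d + x) * w2 := by
    have : g * (c' * w1) = g * ((d + x) * w2) := by
      have e1 : g * (c' * w1) = b' * c' := by rw [hw1]; ring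
      have e2 : g * ((d + x) * w2) = (a + x) * (d + x) := by rw [hw2]; ring
      rw [e1, e2, hchar]
    exact mul_left_cancel₀ hg0.ne' this
  refine ⟨x, x + (a + d), u * (a * v + b' * u) - v * (c' * v + d * u), ?_, by ring, ?_, by linarith⟩
  · refine Sim.symm ⟨!![w1, v; -w2, u], ?_, ?_⟩
    · rw [Matrix.det_fin_two_of]
      have : w1 * u - v * -w2 = 1 := by linear_combination hdet1
      rw [this]; exact isUnit_one
    · ext i j; fin_cases i <;> fin_cases j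
      · simp [Pm, Matrix.mul_apply, Fin.sum_univ_two]; linear_combination -r1
      · simp [Pm, Matrix.mul_apply, Fin.sum_univ_two]
        linear_combination (a * v + b' * u) * hdet1 + v * u * r1 - v * v * r2 - (x + a + d) * v * hdet1
      · simp [Pm, Matrix.mul_apply, Fin.sum_univ_two]; linear_combination -r2
      · simp [Pm, Matrix.mul_apply, Fin.sum_univ_two]
        linear_combination (c' * v + d * u) * hdet1 - u * (a + d + x) * hdet1 + u * u * r1 - u * v * r2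
  · linear_combination hchar

/-- The triangular form shifted and reflected. -/
lemma Pm_shift (x y b q : ℤ) : Sim (Pm x y (b + q * (x + y))) (Pm x y b) := by
  refine ⟨!![1, -q; 0, 1], by simp [Matrix.det_fin_two], ?_⟩
  ext i j; fin_cases i <;> fin_cases j <;> simp [Pm, Matrix.mul_apply, Fin.sum_univ_two] <;> ring

lemma Pm_neg (x y b : ℤ) : Sim (Pm x y b) (Pm x y (-b)) := by
  refine ⟨!![-1, 0; 0, 1], by simp [Matrix.det_fin_two], ?_⟩
  ext i j; fin_cases i <;> fin_cases j <;> simp [Pm, Matrix.mul_apply, Fin.sum_univ_two]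

/-- An irreducible nonnegative matrix is not in the split class. -/
lemma not_split {A : Matrix (Fin 2) (Fin 2) ℤ} {x y b : ℤ} (p1 : 1 ≤ A 0 1) (p2 : 1 ≤ A 1 0)
    (hs : Sim A (Pm x y b)) (hT : y - x = A.trace) (hD : x * y = -A.det) (hN : 0 < x + y) :
    ¬ (x + y) ∣ b := by
  rintro ⟨c, rfl⟩
  obtain ⟨U, hU, h1⟩ := hs
  -- `A + x = (x + y) * X`
  have h2 : U * (A + !![x, 0; 0, x]) = (x + y) • (!![0, c; 0, 1] * U) := by
    rw [Matrix.mul_add, h1, Matrix.eta_fin_two U]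
    ext i j; fin_cases i <;> fin_cases j <;>
      simp [Pm, Matrix.mul_apply, Fin.sum_univ_two] <;> ring
  have h3 : A + !![x, 0; 0, x] = (x + y) • (U⁻¹ * (!![0, c; 0, 1] * U)) := by
    rw [← Matrix.mul_smul, ← h2, ← Matrix.mul_assoc, (inv_mul_of_det_one hU).1, Matrix.one_mul]
  obtain ⟨X, hX⟩ : ∃ X, X = U⁻¹ * (!![0, c; 0, 1] * U) := ⟨_, rfl⟩
  rw [← hX] at h3
  have e01 := congrFun (congrFun h3 0) 1
  have e10 := congrFun (congrFun h3 1) 0
  simp at e01 e10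
  rw [Matrix.trace_fin_two] at hT
  rw [Matrix.det_fin_two] at hD
  have g1 : x + y ≤ A 0 1 := by
    have h4 : 0 < (x + y) * X 0 1 := by rw [← e01]; linarith
    have h5 : 0 < X 0 1 := (mul_pos_iff_of_pos_left hN).mp h4
    have h6 : (x + y) * 1 ≤ (x + y) * X 0 1 := mul_le_mul_of_nonneg_left (by linarith) hN.le
    linarith
  have g2 : x + y ≤ A 1 0 := by
    have h4 : 0 < (x + y) * X 1 0 := by rw [← e10]; linarith
    have h5 : 0 < X 1 0 := (mul_pos_iff_of_pos_left hN).mp h4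
    have h6 : (x + y) * 1 ≤ (x + y) * X 1 0 := mul_le_mul_of_nonneg_left (by linarith) hN.le
    linarith
  have g3 : (x + y) * (x + y) ≤ A 0 1 * A 1 0 := mul_le_mul g1 g2 hN.le (by linarith)
  have g4 : (A 0 0 + x) * (A 1 1 + x) = A 0 1 * A 1 0 := by
    have : y = A 0 0 + A 1 1 + x := by linarith
    rw [this] at hD
    linear_combination hD
  have g5 : (A 0 0 + x) + (A 1 1 + x) = x + y := by linarith
  have g6 : 0 ≤ ((A 0 0 + x) - (A 1 1 + x)) ^ 2 := sq_nonneg _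
  have g7 : 0 < (x + y) * (x + y) := mul_pos hN hN
  have g8 : ((A 0 0 + x) - (A 1 1 + x)) ^ 2 =
      ((A 0 0 + x) + (A 1 1 + x)) * ((A 0 0 + x) + (A 1 1 + x)) -
        4 * ((A 0 0 + x) * (A 1 1 + x)) := by ring
  rw [g8, g4, g5] at g6
  linarith

/-- Every irreducible nonnegative matrix is linked to its class. -/
lemma toK {A : Matrix (Fin 2) (Fin 2) ℤ} {x y b β : ℤ} (hx : x ≠ 0) (hy : 484 * |x| ≤ y)
    (hA : NN A) (p1 : 1 ≤ A 0 1) (p2 : 1 ≤ A 1 0)
    (hs : Sim A (Pm x y b)) (hT : y - x = A.trace) (hD : x * y = -A.det)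
    (hTD : 500 * |x * y| ≤ (y - x) ^ 2) (hβ : 2 * |β| ≤ x + y) (hb : (x + y) ∣ b - β) :
    Q A (K x y β) := by
  have hN := N_pos hx hy
  have h0 : 0 < |x| := abs_pos.mpr hx
  have hxx := le_abs_self x
  have hβ0 : β ≠ 0 := by
    rintro rfl
    rw [sub_zero] at hb
    exact not_split p1 p2 hs hT hD hN hb
  have hβ1 : 1 ≤ |β| := Int.one_le_abs hβ0
  obtain ⟨M, m1, m2, m3, m4, m5⟩ := kone hx hy hβ1 hβ
  have hs2 : Sim A (Pm x y |β|) := by
    obtain ⟨q, hq⟩ := hb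
    have e : b = β + q * (x + y) := by linarith
    rw [e] at hs
    have h1 := hs.trans (Pm_shift x y β q)
    rcases abs_choice β with h2 | h2
    · rw [h2]; exact h1
    · rw [h2]; exact h1.trans (Pm_neg x y β)
  have hxy : x * y ≠ 0 := mul_ne_zero hx (by intro h; linarith)
  have h3 : Q A M := simR hA m1 p1 p2 m2 m3 (m4.trans hs2.symm) hT.symm (by linarith) (by linarith)
    hxy hTD
  refine (h3.trans m5).trans ?_
  rcases abs_choice β with h2 | h2
  · rw [h2]; exact Q.refl _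
  · have h4 := K_neg x y |β| hx hy (by rw [abs_abs]; exact hβ)
    have h5 : -|β| = β := by rw [h2, neg_neg]
    rwa [h5] at h4

lemma pow_tri (x y b : ℤ) (l : ℕ) : ∃ c, (Pm x y b) ^ l = !![(-x) ^ l, c; 0, y ^ l] := by
  induction l with
  | zero => exact ⟨0, by ext i j; fin_cases i <;> fin_cases j <;> simp⟩
  | succ l ih =>
    obtain ⟨c, hc⟩ := ih
    refine ⟨(-x) ^ l * b + c * y, ?_⟩
    rw [pow_succ, hc]
    ext i j; fin_cases i <;> fin_cases j <;>
      simp [Pm, Matrix.mul_apply, Fin.sum_univ_two, pow_succ]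

/-- The arithmetic consequence of a shift equivalence over `ℤ`. -/
lemma arith {A B R S : Matrix (Fin 2) (Fin 2) ℤ} {x y b b' : ℤ} (l : ℕ) (hN : x + y ≠ 0)
    (hA : Sim A (Pm x y b)) (hB : Sim B (Pm x y b')) (h1 : A * R = R * B) (h2 : S * A = B * S)
    (h3 : A ^ l = R * S) :
    ∃ r r' : ℤ, r ∣ y ^ l ∧ r' ∣ x ^ l ∧ (x + y) ∣ r * b - r' * b' := by
  obtain ⟨U, hU, hUA⟩ := hA
  obtain ⟨V, hV, hVB⟩ := hB
  obtain ⟨u1, u2⟩ := inv_mul_of_det_one hU
  obtain ⟨v1, v2⟩ := inv_mul_of_det_one hV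
  have hUA' : A * U⁻¹ = U⁻¹ * Pm x y b := by
    calc A * U⁻¹ = (U⁻¹ * U) * A * U⁻¹ := by rw [u1, Matrix.one_mul]
      _ = U⁻¹ * (U * A) * U⁻¹ := by simp only [Matrix.mul_assoc]
      _ = U⁻¹ * Pm x y b * (U * U⁻¹) := by rw [hUA]; simp only [Matrix.mul_assoc]
      _ = U⁻¹ * Pm x y b := by rw [u2, Matrix.mul_one]
  have hVB' : B * V⁻¹ = V⁻¹ * Pm x y b' := by
    calc B * V⁻¹ = (V⁻¹ * V) * B * V⁻¹ := by rw [v1, Matrix.one_mul]
      _ = V⁻¹ * (V * B) * V⁻¹ := by simp only [Matrix.mul_assoc]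
      _ = V⁻¹ * Pm x y b' * (V * V⁻¹) := by rw [hVB]; simp only [Matrix.mul_assoc]
      _ = V⁻¹ * Pm x y b' := by rw [v2, Matrix.mul_one]
  obtain ⟨R', hR'⟩ : ∃ R', R' = U * R * V⁻¹ := ⟨_, rfl⟩
  obtain ⟨S', hS'⟩ : ∃ S', S' = V * S * U⁻¹ := ⟨_, rfl⟩
  have k1 : Pm x y b * R' = R' * Pm x y b' := by
    calc Pm x y b * R' = (Pm x y b * U) * R * V⁻¹ := by rw [hR']; simp only [Matrix.mul_assoc]
      _ = U * (A * R) * V⁻¹ := by rw [← hUA]; simp only [Matrix.mul_assoc]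
      _ = U * R * (B * V⁻¹) := by rw [h1]; simp only [Matrix.mul_assoc]
      _ = R' * Pm x y b' := by rw [hVB', hR']; simp only [Matrix.mul_assoc]
  have k2 : S' * Pm x y b = Pm x y b' * S' := by
    calc S' * Pm x y b = V * S * (U⁻¹ * Pm x y b) := by rw [hS']; simp only [Matrix.mul_assoc]
      _ = V * (S * A) * U⁻¹ := by rw [← hUA']; simp only [Matrix.mul_assoc]
      _ = (V * B) * S * U⁻¹ := by rw [h2]; simp only [Matrix.mul_assoc]
      _ = Pm x y b' * S' := by rw [hVB, hS']; simp only [Matrix.mul_assoc]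
  have k3 : (Pm x y b) ^ l = R' * S' := by
    have h4 : U * A ^ l = (Pm x y b) ^ l * U := by
      have h5 := pow_comm_rect (k := ℤ) (A := Pm x y b) (B := A) (R := U) hUA.symm l
      exact h5.symm
    calc (Pm x y b) ^ l = (Pm x y b) ^ l * (U * U⁻¹) := by rw [u2, Matrix.mul_one]
      _ = (U * A ^ l) * U⁻¹ := by rw [h4]; simp only [Matrix.mul_assoc]
      _ = U * R * (V⁻¹ * V) * S * U⁻¹ := by
          rw [h3, v1, Matrix.mul_one]; simp only [Matrix.mul_assoc]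
      _ = R' * S' := by rw [hR', hS']; simp only [Matrix.mul_assoc]
  obtain ⟨c, hc⟩ := pow_tri x y b l
  have r10 := congrFun (congrFun k1 1) 0
  have r01 := congrFun (congrFun k1 0) 1
  have s10 := congrFun (congrFun k2 1) 0
  simp [Pm, Matrix.mul_apply, Fin.sum_univ_two] at r10 r01 s10
  have z1 : R' 1 0 = 0 := by
    have : (x + y) * R' 1 0 = 0 := by linarith
    rcases mul_eq_zero.mp this with h | h
    · exact absurd h hN
    · exact h
  have z2 : S' 1 0 = 0 := by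
    have : (x + y) * S' 1 0 = 0 := by linarith
    rcases mul_eq_zero.mp this with h | h
    · exact absurd h hN
    · exact h
  rw [hc] at k3
  have d00 := congrFun (congrFun k3 0) 0
  have d11 := congrFun (congrFun k3 1) 1
  simp [Matrix.mul_apply, Fin.sum_univ_two, z1, z2] at d00 d11
  refine ⟨R' 1 1, R' 0 0, ⟨S' 1 1, d11⟩, ?_, ⟨R' 0 1, by linarith⟩⟩
  have h5 : R' 0 0 ∣ (-x) ^ l := ⟨S' 0 0, d00⟩
  rcases Nat.even_or_odd l with hl | hl
  · rwa [hl.neg_pow] at h5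
  · rw [hl.neg_pow] at h5
    exact (dvd_neg.mp h5)

/-- Shift equivalence over `ℤ` implies a chain, for irreducible matrices with rational
eigenvalues. -/
theorem Q_rat {A B R S : Matrix (Fin 2) (Fin 2) ℤ} (hA : NN A) (hB : NN B)
    (p1 : 1 ≤ A 0 1) (p2 : 1 ≤ A 1 0) (p3 : 1 ≤ B 0 1) (p4 : 1 ≤ B 1 0)
    (hD : A.det ≠ 0) (hTD : 500 * |A.det| ≤ A.trace ^ 2)
    (hsq : IsSquare (A.trace ^ 2 - 4 * A.det)) (l : ℕ) (h1 : A * R = R * B)
    (h2 : S * A = B * S) (h3 : A ^ l = R * S) : Q A B := by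
  -- trace and determinant of `B`
  have hRdet : R.det ≠ 0 := by
    intro h
    have := congrArg Matrix.det h3
    rw [Matrix.det_mul, h, zero_mul, Matrix.det_pow] at this
    exact pow_ne_zero _ hD this
  have hBD : B.det = A.det := by
    have := congrArg Matrix.det h1
    rw [Matrix.det_mul, Matrix.det_mul, mul_comm] at this
    exact (mul_left_cancel₀ hRdet this).symm
  have hBT : B.trace = A.trace := by
    have e1 : (R.adjugate * (A * R)).trace = R.det * A.trace := by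
      rw [← Matrix.mul_assoc, Matrix.trace_mul_comm, ← Matrix.mul_assoc, Matrix.mul_adjugate,
        Matrix.smul_mul, Matrix.one_mul, Matrix.trace_smul, smul_eq_mul]
    rw [h1, ← Matrix.mul_assoc, Matrix.adjugate_mul, Matrix.smul_mul, Matrix.one_mul,
      Matrix.trace_smul, smul_eq_mul] at e1
    exact mul_left_cancel₀ hRdet e1
  obtain ⟨k0, hk0⟩ := hsq
  obtain ⟨k, hk, hkpos⟩ : ∃ k : ℤ, A.trace ^ 2 - 4 * A.det = k * k ∧ 0 ≤ k :=
    ⟨|k0|, by rw [hk0, abs_mul_abs_self], abs_nonneg _⟩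
  obtain ⟨x, y, b, s1, t1, d1, n1⟩ := exists_tri A k hk p1
  obtain ⟨x', y', b', s2, t2, d2, n2⟩ := exists_tri B k (by rw [hBT, hBD]; exact hk) p3
  have ex : x' = x := by rw [hBT] at t2; linarith
  have ey : y' = y := by rw [hBT] at t2; linarith
  subst ex ey
  have hT0 : 0 ≤ A.trace := by
    rw [Matrix.trace_fin_two]; exact add_nonneg (hA 0 0) (hA 1 1)
  have hxy : x' * y' ≠ 0 := by rw [d1]; exact neg_ne_zero.mpr hD
  have hx : x' ≠ 0 := left_ne_zero_of_mul hxy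
  have hTD' : 500 * |x' * y'| ≤ (y' - x') ^ 2 := by rw [d1, t1, abs_neg]; exact hTD
  have hy0 : 0 ≤ y' := by linarith
  have h0 : 0 < |x'| := abs_pos.mpr hx
  have hxy' : |x'| ≤ y' := by rw [abs_le]; constructor <;> linarith
  have hy : 484 * |x'| ≤ y' := by
    rw [abs_mul, abs_of_nonneg hy0] at hTD'
    have e1 : (y' - x') ^ 2 ≤ (y' + |x'|) ^ 2 := by
      refine sq_le_sq' ?_ ?_
      · have := le_abs_self x'; linarith
      · have := neg_abs_le x'; linarith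
    nlinarith
  have hN := N_pos hx hy
  obtain ⟨β, q, hβ, hβ2⟩ := exists_rep (x' + y') b hN
  obtain ⟨β', q', hβ', hβ2'⟩ := exists_rep (x' + y') b' hN
  have g1 : (x' + y') ∣ b - β := ⟨q, by rw [hβ]; ring⟩
  have g2 : (x' + y') ∣ b' - β' := ⟨q', by rw [hβ']; ring⟩
  have q1 := toK hx hy hA p1 p2 s1 t1 d1 hTD' hβ2 g1
  have q2 := toK hx hy hB p3 p4 s2 t2 d2 hTD' hβ2' g2
  obtain ⟨r, r', w1, w2, w3⟩ := arith l hN.ne' s1 s2 h1 h2 h3
  exact (q1.trans (Rl.main hx hy l w1 w2 w3 β β' hβ2 hβ2' g1 g2)).trans q2.symm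

end Pool.Agent.K1H62.SR
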