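import Pool.Agent.K1H62.SR.Rel

/-!
# Irreducible `2 × 2` matrices with rational eigenvalues and the canonical presentations
-/

set_option autoImplicit false

namespace Pool.Agent.K1H62.SR

open Matrix Pool.Agent.TH441.SSE2 Pool.Agent.Y321.SE2

/-- The triangular normal form. -/
def Pm (x y b : ℤ) : Matrix (Fin 2) (Fin 2) ℤ := !![-x, b; 0, y]

section

variable {x y : ℤ} (hx : x ≠ 0) (hy : 484 * |x| ≤ y)

include hx hy

/-- A nonnegative `2 × 2` matrix linked to the canonical presentation. -/
lemma kone {b : ℤ} (hb : 1 ≤ b) (hb2 : 2 * b ≤ x + y) :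
    ∃ M : Matrix (Fin 2) (Fin 2) ℤ, NN M ∧ 1 ≤ M 0 1 ∧ 1 ≤ M 1 0 ∧ Sim M (Pm x y b) ∧
      Q M (K x y b) := by
  obtain ⟨a1, a2, a3, a4, a5, a6⟩ := s0_spec x hx
  have h0 : 0 < |x| := abs_pos.mpr hx
  have hxx := le_abs_self x
  have hxn := neg_abs_le x
  obtain ⟨j, hj⟩ : ∃ j, j = ce |x| b := ⟨_, rfl⟩
  obtain ⟨c1, c2⟩ := ce_spec |x| b hb
  rw [← hj] at c1 c2
  have hj1 : 1 ≤ j := by
    by_contra h
    push Not at h
    have : b * j ≤ 0 := mul_nonpos_of_nonneg_of_nonpos (by linarith) (by linarith)
    linarith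
  have hjx : j ≤ |x| := by
    have : 1 * (j - 1) ≤ b * (j - 1) := mul_le_mul_of_nonneg_right hb (by linarith)
    linarith
  have hjj : 1 ≤ j * (x + y - b * j) := by
    have : 1 * 1 ≤ j * (x + y - b * j) := mul_le_mul hj1 (by linarith) (by norm_num) (by linarith)
    linarith
  refine ⟨(K1 x 0 b y j)ᵀ, ?_, ?_, ?_, ?_, ?_⟩
  · intro i k
    fin_cases i <;> fin_cases k <;> simp [K1] <;> linarith
  · simpa [K1] using hb
  · simp [K1]; linarith
  · have h := (K1_sim x 0 b y j).transpose
    have e : (!![-x, 0; b, y] : Matrix (Fin 2) (Fin 2) ℤ)ᵀ = Pm x y b := by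
      ext i k; fin_cases i <;> fin_cases k <;> simp [Pm]
    rwa [e] at h
  · have q1 := move_start x 0 b y j (inH_abs hj1 (by rw [abs_neg]; linarith)) (by
      refine inH_abs hj1 ?_
      rw [zero_add, abs_mul, abs_of_nonneg (show 0 ≤ j by linarith)]
      exact mul_le_mul_of_nonneg_left (by linarith) (by linarith))
    obtain ⟨d1, d2⟩ := ce_spec (Av x) j hj1
    obtain ⟨t, ht⟩ : ∃ t, t = ce (Av x) j := ⟨_, rfl⟩
    rw [← ht] at d1 d2
    have q2 := move_add x 0 b y j 0 0 (s0 x) t (by linarith) ⟨le_rfl, by simp, by simp⟩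
      (inH_abs hj1 (by linarith)) (by
        refine inH_abs hj1 ?_
        have e : 0 + j * x - 2 * j * (0 + s0 x) = j * (x - 2 * s0 x) := by ring
        rw [e, abs_mul, abs_of_nonneg (show 0 ≤ j by linarith)]
        exact mul_le_mul_of_nonneg_left (by linarith) (by linarith))
      (inH_abs hj1 (by rw [zero_sub, abs_neg]; linarith))
    rw [zero_add, zero_add] at q2
    have q3 := desc x 0 b y (Av x) (s0 x) (by linarith) a4 a5 a6 (j - 1).toNat j (by
      rw [Int.toNat_of_nonneg (by linarith)]; ring) (by rw [abs_zero]; linarith)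
    rw [← ht] at q3
    have q4 := ((q1.trans q2.symm).trans q3).transpose
    refine q4.trans ?_
    -- the bridge
    have hA1 : Av x - (if 0 ≤ x then x - Av x else -x - Av x) ≤ 1 := by
      split_ifs with h
      · rw [abs_of_nonneg h] at a2 a3; linarith
      · push Not at h
        rw [abs_of_neg h] at a2 a3; linarith
    rcases le_or_gt 0 x with h | h
    · have hs : s0 x = Av x := by unfold s0; rw [if_pos h]
      rw [abs_of_nonneg h] at a2 a3 h0
      have hB := bridge x b y (s0 x) (Av x) (x - Av x) (Av x)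
        !![0, 0, Av x; 2 * Av x - x, y - b - 2 * Av x - (2 * Av x - x), 0;
          x - Av x, Av x + b - (x - Av x), 0] (by
          intro i k
          fin_cases i <;> fin_cases k <;> simp <;> linarith) (by
          rw [hs]
          ext i k; fin_cases i <;> fin_cases k <;>
            simp [Vc, Ur, Matrix.mul_apply, Fin.sum_univ_succ] <;> ring) (by
          ext i k; fin_cases i <;> fin_cases k <;>
            simp [Vc, Ur, Matrix.mul_apply, Fin.sum_univ_succ] <;> ring)
      refine hB.trans ?_
      rw [hs] at a4 a5 a6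
      unfold K
      rw [hs]
      refine conn x b 0 y 1 (x - Av x) (Av x) (Av x) (Av x) (Av x + 1) (by norm_num)
        (mkInH le_rfl (by linarith) (by linarith)) (mkInH le_rfl (by linarith) (by linarith))
        (mkInH le_rfl (by linarith) (by linarith)) (mkInH le_rfl (by linarith) (by linarith))
        (by linarith) (mkInH le_rfl (by linarith) (by linarith))
        (mkInH le_rfl (by linarith) (by linarith))
    · have hs : s0 x = -Av x := by unfold s0; rw [if_neg (by linarith)]
      rw [abs_of_neg h] at a2 a3 h0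
      have hB := bridge x b y (s0 x) (Av x) (-Av x) (Av x)
        !![Av x, 0, 0; 0, y - b - 2 * Av x - (2 * Av x + x), 2 * Av x + x;
          0, Av x + b - (-x - Av x), -x - Av x] (by
          intro i k
          fin_cases i <;> fin_cases k <;> simp <;> linarith) (by
          rw [hs]
          ext i k; fin_cases i <;> fin_cases k <;>
            simp [Vc, Ur, Matrix.mul_apply, Fin.sum_univ_succ] <;> ring) (by
          ext i k; fin_cases i <;> fin_cases k <;>
            simp [Vc, Ur, Matrix.mul_apply, Fin.sum_univ_succ] <;> ring)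
      refine hB.trans ?_
      unfold K
      rw [hs]
      exact Q.refl _

end

end Pool.Agent.K1H62.SR
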