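import Pool.Agent.K1H62.SR.Tri

/-!
# Determinant zero, and reducible against irreducible
-/

set_option autoImplicit false

namespace Pool.Agent.K1H62.SR

open Matrix Pool.Agent.TH441.SSE2 Pool.Agent.Y321.SE2

/-- A nonnegative `2 × 2` matrix with determinant zero is linked to its trace. -/
lemma det_zero {A : Matrix (Fin 2) (Fin 2) ℤ} (hA : NN A) (hD : A.det = 0) :
    Q A (!![A.trace] : Matrix (Fin 1) (Fin 1) ℤ) := by
  have hAeta := Matrix.eta_fin_two A
  have k00 := hA 0 0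
  have k01 := hA 0 1
  have k10 := hA 1 0
  have k11 := hA 1 1
  rw [Matrix.det_fin_two] at hD
  rw [Matrix.trace_fin_two]
  obtain ⟨a, ha⟩ : ∃ a, a = A 0 0 := ⟨_, rfl⟩
  obtain ⟨b, hb⟩ : ∃ a, a = A 0 1 := ⟨_, rfl⟩
  obtain ⟨c, hc⟩ : ∃ a, a = A 1 0 := ⟨_, rfl⟩
  obtain ⟨d, hd⟩ : ∃ a, a = A 1 1 := ⟨_, rfl⟩
  rw [← ha, ← hb, ← hc, ← hd] at hAeta
  rw [← ha] at k00
  rw [← hb] at k01
  rw [← hc] at k10
  rw [← hd] at k11
  rw [← ha, ← hb, ← hc, ← hd] at hD
  rw [← ha, ← hd, hAeta]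
  clear ha hb hc hd hAeta hA
  have key : ∀ g k u v : ℤ, 0 ≤ g → 0 ≤ k → 0 ≤ u → 0 ≤ v → a = g * u → b = g * v → c = k * u →
      d = k * v → Q !![a, b; c, d] (!![a + d] : Matrix (Fin 1) (Fin 1) ℤ) := by
    rintro g k u v hg hk hu hv rfl rfl rfl rfl
    refine Q.of_elem (!![g; k] : Matrix (Fin 2) (Fin 1) ℤ) !![u, v] ?_ ?_ ?_ ?_
    · intro i j; fin_cases i <;> fin_cases j <;> simpa
    · intro i j; fin_cases i <;> fin_cases j <;> simpa
    · ext i j; fin_cases i <;> fin_cases j <;> simp [Matrix.mul_apply]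
    · ext i j; fin_cases i; fin_cases j; simp [Matrix.mul_apply, Fin.sum_univ_two]; ring
  by_cases h0 : a = 0 ∧ b = 0
  · obtain ⟨rfl, rfl⟩ := h0
    exact key 0 1 c d le_rfl (by norm_num) k10 k11 (by simp) (by simp) (by simp) (by simp)
  · have hne : a ≠ 0 ∨ b ≠ 0 := by
      by_contra h; push Not at h; exact h0 h
    obtain ⟨g, hg⟩ : ∃ g : ℤ, g = Int.gcd a b := ⟨_, rfl⟩
    have hg0 : 0 < g := by
      rw [hg]
      exact_mod_cast Int.gcd_pos_iff.mpr hne
    have hbez := Int.gcd_eq_gcd_ab a b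
    rw [← hg] at hbez
    obtain ⟨u, hu⟩ : g ∣ a := by rw [hg]; exact Int.gcd_dvd_left ..
    obtain ⟨v, hv⟩ : g ∣ b := by rw [hg]; exact Int.gcd_dvd_right ..
    obtain ⟨p, hp⟩ : ∃ u, u = Int.gcdA a b := ⟨_, rfl⟩
    obtain ⟨q, hq⟩ : ∃ u, u = Int.gcdB a b := ⟨_, rfl⟩
    rw [← hp, ← hq] at hbez
    have hdet1 : u * p + v * q = 1 := by
      have : g * (u * p + v * q) = g * 1 := by
        rw [hu, hv] at hbez
        linear_combination -hbez
      exact mul_left_cancel₀ hg0.ne' this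
    have hu0 : 0 ≤ u := by
      by_contra h; push Not at h
      have : g * u < 0 := mul_neg_of_pos_of_neg hg0 h
      linarith
    have hv0 : 0 ≤ v := by
      by_contra h; push Not at h
      have : g * v < 0 := mul_neg_of_pos_of_neg hg0 h
      linarith
    have hpar : u * d = v * c := by
      have : g * (u * d) = g * (v * c) := by
        rw [hu, hv] at hD
        linear_combination hD
      exact mul_left_cancel₀ hg0.ne' this
    obtain ⟨k, hk⟩ : ∃ k, k = c * p + d * q := ⟨_, rfl⟩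
    have hck : c = k * u := by rw [hk]; linear_combination -c * hdet1 - q * hpar
    have hdk : d = k * v := by rw [hk]; linear_combination -d * hdet1 + p * hpar
    have hk0 : 0 ≤ k := by
      by_contra h; push Not at h
      have h1 : k * u ≤ 0 := mul_nonpos_of_nonpos_of_nonneg h.le hu0
      have h2 : k * v ≤ 0 := mul_nonpos_of_nonpos_of_nonneg h.le hv0
      have h3 : k * u = 0 := by linarith
      have h4 : k * v = 0 := by linarith
      have h5 : u = 0 := by
        rcases mul_eq_zero.mp h3 with h6 | h6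
        · exact absurd h6 h.ne
        · exact h6
      have h6 : v = 0 := by
        rcases mul_eq_zero.mp h4 with h7 | h7
        · exact absurd h7 h.ne
        · exact h7
      rw [h5, h6] at hdet1
      simp at hdet1
    exact key g k u v hg0.le hk0 hu0 hv0 hu hv hck hdk

/-- Trace and determinant are invariants of shift equivalence. -/
lemma same_inv {A B R S : Matrix (Fin 2) (Fin 2) ℤ} (hD : A.det ≠ 0) (l : ℕ)
    (h1 : A * R = R * B) (h3 : A ^ l = R * S) : B.det = A.det ∧ B.trace = A.trace := by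
  have hRdet : R.det ≠ 0 := by
    intro h
    have := congrArg Matrix.det h3
    rw [Matrix.det_mul, h, zero_mul, Matrix.det_pow] at this
    exact pow_ne_zero _ hD this
  refine ⟨?_, ?_⟩
  · have := congrArg Matrix.det h1
    rw [Matrix.det_mul, Matrix.det_mul, mul_comm] at this
    exact (mul_left_cancel₀ hRdet this).symm
  · have e1 : (R.adjugate * (A * R)).trace = R.det * A.trace := by
      rw [← Matrix.mul_assoc, Matrix.trace_mul_comm, ← Matrix.mul_assoc, Matrix.mul_adjugate,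
        Matrix.smul_mul, Matrix.one_mul, Matrix.trace_smul, smul_eq_mul]
    rw [h1, ← Matrix.mul_assoc, Matrix.adjugate_mul, Matrix.smul_mul, Matrix.one_mul,
      Matrix.trace_smul, smul_eq_mul] at e1
    exact mul_left_cancel₀ hRdet e1

/-- The classification in terms of the triangular forms. -/
theorem classify {A B : Matrix (Fin 2) (Fin 2) ℤ} {x y b b' : ℤ} (hA : NN A) (hB : NN B)
    (p1 : 1 ≤ A 0 1) (p2 : 1 ≤ A 1 0) (p3 : 1 ≤ B 0 1) (p4 : 1 ≤ B 1 0) (hx : x ≠ 0)
    (hxy' : |x| ≤ y) (hTD : 500 * |x * y| ≤ (y - x) ^ 2) (s1 : Sim A (Pm x y b))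
    (s2 : Sim B (Pm x y b')) (l : ℕ) (r r' : ℤ) (w1 : r ∣ y ^ l) (w2 : r' ∣ x ^ l)
    (w3 : (x + y) ∣ r * b - r' * b') : Q A B := by
  have inv : ∀ {M : Matrix (Fin 2) (Fin 2) ℤ} {c : ℤ}, Sim M (Pm x y c) →
      y - x = M.trace ∧ x * y = -M.det := by
    rintro M c ⟨U, hU, h⟩
    obtain ⟨h1, h2⟩ := inv_entries (T := y - x) (D := x * y) hU h.symm
      (by rw [Matrix.trace_fin_two]; simp [Pm]; ring) (by rw [Matrix.det_fin_two]; simp [Pm])
    exact ⟨by rw [Matrix.trace_fin_two]; exact h1, by rw [Matrix.det_fin_two]; linarith⟩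
  obtain ⟨t1, d1⟩ := inv s1
  obtain ⟨t2, d2⟩ := inv s2
  have h0 : 0 < |x| := abs_pos.mpr hx
  have hy0 : 0 ≤ y := by linarith
  have hy : 484 * |x| ≤ y := by
    have hTD' := hTD
    rw [abs_mul, abs_of_nonneg hy0] at hTD'
    have e1 : (y - x) ^ 2 ≤ (y + |x|) ^ 2 := by
      refine sq_le_sq' ?_ ?_
      · have := le_abs_self x; linarith
      · have := neg_abs_le x; linarith
    nlinarith
  have hN := N_pos hx hy
  obtain ⟨β, q, hβ, hβ2⟩ := exists_rep (x + y) b hN
  obtain ⟨β', q', hβ', hβ2'⟩ := exists_rep (x + y) b' hN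
  have g1 : (x + y) ∣ b - β := ⟨q, by rw [hβ]; ring⟩
  have g2 : (x + y) ∣ b' - β' := ⟨q', by rw [hβ']; ring⟩
  have q1 := toK hx hy hA p1 p2 s1 t1 d1 hTD hβ2 g1
  have q2 := toK hx hy hB p3 p4 s2 t2 d2 hTD hβ2' g2
  exact (q1.trans (Rl.main hx hy l w1 w2 w3 β β' hβ2 hβ2' g1 g2)).trans q2.symm

/-- Shift equivalence over `ℤ` with determinant zero. -/
lemma Q_zero {A B R S : Matrix (Fin 2) (Fin 2) ℤ} (hA : NN A) (hB : NN B) (hD : A.det = 0)
    (l : ℕ) (hl : 1 ≤ l) (h3 : A ^ l = R * S) (h4 : B ^ l = S * R) : Q A B := by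
  have hDB : B.det = 0 := by
    have h1 := congrArg Matrix.det h4
    rw [Matrix.det_mul, mul_comm, ← Matrix.det_mul, ← h3, Matrix.det_pow, Matrix.det_pow, hD,
      zero_pow (by omega)] at h1
    exact pow_eq_zero_iff (by omega) |>.mp h1
  have tr : ∀ (M : Matrix (Fin 2) (Fin 2) ℤ), M.det = 0 → ∀ n : ℕ, (M ^ (n + 1)).trace =
      M.trace ^ (n + 1) := by
    intro M hM n
    have h1 : M * M = M.trace • M := by
      have hMeta := Matrix.eta_fin_two M
      rw [Matrix.det_fin_two] at hM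
      rw [Matrix.trace_fin_two]
      ext i j
      fin_cases i <;> fin_cases j <;> simp [Matrix.mul_apply, Fin.sum_univ_two] <;>
        first | ring1 | linear_combination -hM
    have h2 : ∀ n : ℕ, M ^ (n + 1) = M.trace ^ n • M := by
      intro n
      induction n with
      | zero => simp
      | succ n ih => rw [pow_succ, ih, Matrix.smul_mul, h1, smul_smul, pow_succ]
    rw [h2, Matrix.trace_smul, smul_eq_mul, pow_succ]
  obtain ⟨n, rfl⟩ : ∃ n, l = n + 1 := ⟨l - 1, by omega⟩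
  have hTT : A.trace ^ (n + 1) = B.trace ^ (n + 1) := by
    rw [← tr A hD, ← tr B hDB, h3, h4, Matrix.trace_mul_comm]
  have hTA : 0 ≤ A.trace := by rw [Matrix.trace_fin_two]; exact add_nonneg (hA 0 0) (hA 1 1)
  have hTB : 0 ≤ B.trace := by rw [Matrix.trace_fin_two]; exact add_nonneg (hB 0 0) (hB 1 1)
  have hT : A.trace = B.trace := (pow_left_inj₀ hTA hTB (by omega)).mp hTT
  have q1 := det_zero hA hD
  have q2 := det_zero hB hDB
  rw [hT] at q1
  exact q1.trans q2.symm

/-- An irreducible matrix with nonzero determinant and trace is not shift equivalent over `ℕ` to a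
triangular one. -/
lemma irr_tri {A B R S : Matrix (Fin 2) (Fin 2) ℕ} (p1 : 0 < A 0 1) (p2 : 0 < A 1 0)
    (ht : 0 < A 0 0 + A 1 1) (hD : (A.map (Nat.cast : ℕ → ℤ)).det ≠ 0) (hB : B 0 1 = 0 ∨ B 1 0 = 0)
    (l : ℕ) (h1 : A * R = R * B) (h3 : A ^ l = R * S) (h4 : B ^ l = S * R) : False := by
  -- `B ^ m` is triangular
  have tri : ∀ (i j : Fin 2), B i j = 0 → i ≠ j → ∀ m : ℕ, (B ^ m) i j = 0 := by
    intro i j h hij m
    induction m with
    | zero => simp [Matrix.one_apply, hij]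
    | succ m ih =>
      rw [pow_succ, Matrix.mul_apply, Fin.sum_univ_two]
      fin_cases i <;> fin_cases j <;> simp_all
  -- determinants
  have hm : ∀ (X Y : Matrix (Fin 2) (Fin 2) ℕ),
      (X * Y).map (Nat.cast : ℕ → ℤ) = X.map (Nat.cast : ℕ → ℤ) * Y.map (Nat.cast : ℕ → ℤ) :=
    fun X Y => Matrix.map_mul (f := Nat.castRingHom ℤ)
  have hp : ∀ (X : Matrix (Fin 2) (Fin 2) ℕ) (j : ℕ),
      (X ^ j).map (Nat.cast : ℕ → ℤ) = (X.map (Nat.cast : ℕ → ℤ)) ^ j :=
    fun X j => Matrix.map_pow (f := Nat.castRingHom ℤ) X j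
  have h5 := congrArg (fun X : Matrix (Fin 2) (Fin 2) ℕ => (X.map (Nat.cast : ℕ → ℤ)).det) h3
  simp only [hm, hp, Matrix.det_mul, Matrix.det_pow] at h5
  have hR : (R.map (Nat.cast : ℕ → ℤ)).det ≠ 0 := by
    intro h; rw [h, zero_mul] at h5; exact pow_ne_zero _ hD h5
  have hS : (S.map (Nat.cast : ℕ → ℤ)).det ≠ 0 := by
    intro h; rw [h, mul_zero] at h5; exact pow_ne_zero _ hD h5
  -- `S * A ^ 2 * R = B ^ (l + 2)`
  have h6 : S * (A * A) * R = B ^ (l + 2) := by
    calc S * (A * A) * R = S * (A * (A * R)) := by simp only [Matrix.mul_assoc]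
      _ = S * (R * (B * B)) := by rw [h1, ← Matrix.mul_assoc A R B, h1, Matrix.mul_assoc R B B]
      _ = B ^ (l + 2) := by rw [← Matrix.mul_assoc, ← h4, pow_add, pow_two]
  have a00 : 0 < (A * A) 0 0 := by
    rw [Matrix.mul_apply, Fin.sum_univ_two]
    have := Nat.mul_pos p1 p2
    omega
  have a01 : 0 < (A * A) 0 1 := by
    rw [Matrix.mul_apply, Fin.sum_univ_two]
    have := Nat.mul_pos p1 ht
    nlinarith
  have a10 : 0 < (A * A) 1 0 := by
    rw [Matrix.mul_apply, Fin.sum_univ_two]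
    have := Nat.mul_pos p2 ht
    nlinarith
  have a11 : 0 < (A * A) 1 1 := by
    rw [Matrix.mul_apply, Fin.sum_univ_two]
    have := Nat.mul_pos p1 p2
    nlinarith
  have aall : ∀ i j, 0 < (A * A) i j := by
    intro i j; fin_cases i <;> fin_cases j <;> assumption
  -- positivity of every entry of `B ^ (l + 2)`
  have hrow : ∀ i, ∃ k, 0 < S i k := by
    intro i
    by_contra h
    push Not at h
    apply hS
    apply Matrix.det_eq_zero_of_row_eq_zero i
    intro j
    have := h j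
    simp only [Matrix.map_apply]
    exact_mod_cast (by omega : S i j = 0)
  have hcol : ∀ j, ∃ k, 0 < R k j := by
    intro j
    by_contra h
    push Not at h
    apply hR
    apply Matrix.det_eq_zero_of_column_eq_zero j
    intro i
    have := h i
    simp only [Matrix.map_apply]
    exact_mod_cast (by omega : R i j = 0)
  have hpos : ∀ i j, 0 < (B ^ (l + 2)) i j := by
    intro i j
    rw [← h6, Matrix.mul_apply]
    obtain ⟨k, hk⟩ := hrow i
    obtain ⟨k', hk'⟩ := hcol j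
    refine Finset.sum_pos' (fun _ _ => Nat.zero_le _) ⟨k', Finset.mem_univ _, ?_⟩
    refine Nat.mul_pos ?_ hk'
    rw [Matrix.mul_apply]
    exact Finset.sum_pos' (fun _ _ => Nat.zero_le _) ⟨k, Finset.mem_univ _,
      Nat.mul_pos hk (aall k k')⟩
  rcases hB with h | h
  · have h7 := tri 0 1 h (by decide) (l + 2)
    have h8 := hpos 0 1
    omega
  · have h7 := tri 1 0 h (by decide) (l + 2)
    have h8 := hpos 1 0
    omega

end Pool.Agent.K1H62.SR
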